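import Pool.Agent.Y318.MN.Quad
import Pool.Agent.Y318.MN.Dyn
import Pool.Agent.Y504.CO.Fin

/-!
# Hyperbolicity after the push, for nondegenerate critical points

Author: helper318.
-/

set_option autoImplicit false
set_option linter.unusedSectionVars false

open scoped Manifold ContDiff Topology NNReal
open Filter Set Metric

universe u

namespace Pool.Agent.Y318.MN

open Pool.Agent.H718R2.G Pool.Agent.TH80.OMS Pool.Agent.Y504.CO

/-- The second derivative of `h` at `p` is nondegenerate, in every chart. -/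
def Nondeg (n : ℕ) {N : Type u} [TopologicalSpace N] [ChartedSpace (V n) N] (h : N → ℝ) (p : N) :
    Prop :=
  ∀ χ ∈ IsManifold.maximalAtlas (𝓡 n) ∞ N, p ∈ χ.source →
    ∀ v : V n, fderiv ℝ (fderiv ℝ fun w => h (χ.symm w)) (χ p) v = 0 → v = 0

/-- `Φ` increases `h` quadratically near `p`. -/
def Grow (n : ℕ) {N : Type u} [TopologicalSpace N] [ChartedSpace (V n) N] (h : N → ℝ)
    (Φ : N → N) (p : N) : Prop :=
  ∃ χ ∈ IsManifold.maximalAtlas (𝓡 n) ∞ N, p ∈ χ.source ∧ ∃ c : ℝ, 0 < c ∧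
    ∀ᶠ y in 𝓝 p, h y + c * ‖χ y - χ p‖ ^ 2 ≤ h (Φ y)

variable {n : ℕ} {N : Type u} [TopologicalSpace N] [T2Space N] [CompactSpace N]
  [ChartedSpace (V n) N] [IsManifold (𝓡 n) ∞ N]

theorem local_grow {h : N → ℝ} (hh : ContMDiff (𝓡 n) 𝓘(ℝ, ℝ) ∞ h) (z : N)
    (hz : IsCrit n h z) (hnd : Nondeg n h z) (W : Set N) (hW : IsOpen W) (hzW : z ∈ W) {r : ℕ∞}
    (hr : 1 ≤ r) (F : DiffM n N r) (U : Set (DiffM n N r)) (hU : IsOpen[strongTop n N r] U)
    (hFU : F ∈ U) :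
    ∃ (Φ : N → N) (G : DiffM n N r), G ∈ U ∧ (∀ y, G y = F (Φ y)) ∧ IsPush n h ∅ Φ ∧
      (∃ K, IsClosed K ∧ K ⊆ W ∧ ∀ y, y ∉ K → Φ y = y) ∧ Grow n h Φ z := by
  obtain ⟨O, χ, H, -, -, hχ, hzχ, hχ0, hH, he, L⟩ := local_push hh z W hW hzW
  obtain ⟨Φ, G, h1, h2, h3, h4, t, ht, h5⟩ := L r hr F U hU hFU
  refine ⟨Φ, G, h1, h2, h3.mono (empty_subset _), h4, χ, hχ, hzχ, ?_⟩
  have hH0 : fderiv ℝ H 0 = 0 := by
    rw [he.fderiv_eq, ← hχ0]
    exact (crit_iff hh hχ hzχ).1 hz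
  have hH2 : ∀ v : V n, fderiv ℝ (fderiv ℝ H) 0 v = 0 → v = 0 := by
    intro v hv
    refine hnd χ hχ hzχ v ?_
    rw [hχ0, ← he.fderiv.fderiv_eq]
    exact hv
  obtain ⟨c, hc, hgr⟩ := gr_grow H hH hH0 hH2
  have hcont : Tendsto χ (𝓝 z) (𝓝 0) := by
    have := (χ.continuousAt hzχ).tendsto
    rwa [hχ0] at this
  have e1 := hcont.eventually hgr
  have e2 : ∀ᶠ y in 𝓝 z, ‖χ y‖ < 1 / 4 := by
    have := hcont.norm
    rw [norm_zero] at this
    exact this.eventually (gt_mem_nhds (by norm_num))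
  refine ⟨t * c ^ 2, by positivity, ?_⟩
  filter_upwards [e1, e2, χ.open_source.mem_nhds hzχ] with y k1 k2 k3
  have k4 := h5 y k3 k2
  rw [hχ0, sub_zero]
  have k5 : (c * ‖χ y‖) ^ 2 ≤ ‖gr H (χ y)‖ ^ 2 := pow_le_pow_left₀ (by positivity) k1 2
  have k6 := mul_le_mul_of_nonneg_left k5 ht.le
  nlinarith

theorem exists_push_grow {h : N → ℝ} (hh : ContMDiff (𝓡 n) 𝓘(ℝ, ℝ) ∞ h) {r : ℕ∞}
    (hr : 1 ≤ r) (F : DiffM n N r) (U : Set (DiffM n N r)) (hU : IsOpen[strongTop n N r] U)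
    (hFU : F ∈ U) (P : Finset N) (hP : ∀ p ∈ P, IsCrit n h p ∧ Nondeg n h p) :
    ∃ (Φ : N → N) (G : DiffM n N r), G ∈ U ∧ (∀ y, G y = F (Φ y)) ∧ IsPush n h univ Φ ∧
      ∀ p ∈ P, Grow n h Φ p := by
  classical
  revert hP
  refine Finset.induction_on P ?_ ?_
  · intro _
    obtain ⟨Φ, G, h1, h2, h3⟩ := exists_push hh hr F U hU hFU
    exact ⟨Φ, G, h1, h2, h3, fun p hp => absurd hp (Finset.notMem_empty p)⟩
  · intro p S hpS ih hP
    obtain ⟨Φ, G, h1, h2, h3, h4⟩ := ih fun q hq => hP q (Finset.mem_insert_of_mem hq)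
    obtain ⟨k1, k2⟩ := hP p (Finset.mem_insert_self _ _)
    obtain ⟨Φ', G', h1', h2', h3', ⟨K, hK, hKW, hKΦ⟩, χ, hχ, hpχ, c, hc, hgrow⟩ :=
      local_grow hh p k1 k2 ((S : Set N)ᶜ) S.finite_toSet.isClosed.isOpen_compl
        (by simpa using hpS) hr G U hU h1
    refine ⟨Φ ∘ Φ', G', h1', fun y => ?_, ?_, ?_⟩
    · rw [h2', h2]; rfl
    · have := h3.comp h3'
      rwa [univ_union] at this
    · intro q hq
      rcases Finset.mem_insert.1 hq with rfl | hq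
      · refine ⟨χ, hχ, hpχ, c, hc, ?_⟩
        filter_upwards [hgrow] with y hy
        exact hy.trans (h3.le _)
      · obtain ⟨χ₁, hχ₁, hq₁, c₁, hc₁, hg₁⟩ := h4 q hq
        refine ⟨χ₁, hχ₁, hq₁, c₁, hc₁, ?_⟩
        have hqK : q ∈ Kᶜ := fun hcon => hKW hcon hq
        filter_upwards [hg₁, hK.isOpen_compl.mem_nhds hqK] with y hy hyK
        show _ ≤ h (Φ (Φ' y))
        rw [hKΦ y hyK]
        exact hy

theorem trans_cd {χ ψ : OpenPartialHomeomorph N (V n)}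
    (hχ : χ ∈ IsManifold.maximalAtlas (𝓡 n) ∞ N) (hψ : ψ ∈ IsManifold.maximalAtlas (𝓡 n) ∞ N)
    {p : N} (hp : p ∈ χ.source) (hp' : p ∈ ψ.source) :
    ContDiffAt ℝ ∞ (fun w => ψ (χ.symm w)) (χ p) := by
  rw [← contMDiffAt_iff_contDiffAt]
  have hv : χ p ∈ χ.target := χ.map_source hp
  have h2 : ContMDiffAt (𝓡 n) (𝓡 n) ∞ χ.symm (χ p) :=
    (contMDiffOn_symm_of_mem_maximalAtlas hχ _ hv).contMDiffAt (χ.open_target.mem_nhds hv)
  have h3 : ContMDiffAt (𝓡 n) (𝓡 n) ∞ ψ (χ.symm (χ p)) := by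
    rw [χ.left_inv hp]
    exact (contMDiffOn_of_mem_maximalAtlas hψ _ hp').contMDiffAt (ψ.open_source.mem_nhds hp')
  exact h3.comp (χ p) h2

theorem Grow.chart {h : N → ℝ} {Φ : N → N} {p : N} (H : Grow n h Φ p)
    {ψ : OpenPartialHomeomorph N (V n)} (hψ : ψ ∈ IsManifold.maximalAtlas (𝓡 n) ∞ N)
    (hp : p ∈ ψ.source) :
    ∃ c : ℝ, 0 < c ∧ ∀ᶠ y in 𝓝 p, h y + c * ‖ψ y - ψ p‖ ^ 2 ≤ h (Φ y) := by
  obtain ⟨χ, hχ, hpχ, c, hc, hgrow⟩ := H
  obtain ⟨K, t, ht, hK⟩ := ((trans_cd hχ hψ hpχ hp).of_le (m := 1) (by simp)).exists_lipschitzOnWith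
  refine ⟨c / ((K : ℝ) + 1) ^ 2, by positivity, ?_⟩
  filter_upwards [hgrow, χ.open_source.mem_nhds hpχ, (χ.continuousAt hpχ).preimage_mem_nhds ht]
    with y h1 h2 h3
  have h4 := hK.norm_sub_le h3 (mem_of_mem_nhds ht)
  rw [χ.left_inv h2, χ.left_inv hpχ] at h4
  have hK0 : (0 : ℝ) ≤ K := K.coe_nonneg
  have h5 : ‖ψ y - ψ p‖ ^ 2 ≤ (((K : ℝ) + 1) * ‖χ y - χ p‖) ^ 2 := by
    refine pow_le_pow_left₀ (norm_nonneg _) (h4.trans ?_) 2
    exact mul_le_mul_of_nonneg_right (by linarith) (norm_nonneg _)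
  have h6 : c / ((K : ℝ) + 1) ^ 2 * ‖ψ y - ψ p‖ ^ 2 ≤ c * ‖χ y - χ p‖ ^ 2 := by
    calc c / ((K : ℝ) + 1) ^ 2 * ‖ψ y - ψ p‖ ^ 2
        ≤ c / ((K : ℝ) + 1) ^ 2 * (((K : ℝ) + 1) * ‖χ y - χ p‖) ^ 2 :=
          mul_le_mul_of_nonneg_left h5 (by positivity)
      _ = c * ‖χ y - χ p‖ ^ 2 := by field_simp
  linarith

theorem iter_smooth {r : ℕ∞} (G : DiffM n N r) (m : ℕ) :
    ContMDiff (𝓡 n) (𝓡 n) r (G^[m]) := by
  induction m with
  | zero => exact contMDiff_id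
  | succ m ih =>
    rw [Function.iterate_succ']
    exact G.contMDiff.comp ih

/-- **Hyperbolicity.** -/
theorem hyp_of_grow {r : ℕ∞} (hr : 1 ≤ r) {F G : DiffM n N r} {h : N → ℝ} {Φ : N → N}
    (hh : ContMDiff (𝓡 n) 𝓘(ℝ, ℝ) ∞ h) (hm : ∀ x, h x ≤ h (F x)) (hG : ∀ y, G y = F (Φ y))
    (hΦ : IsPush n h univ Φ) {p : N} (hcrit : IsCrit n h p) (hgrow : Grow n h Φ p) :
    HypAt n G p := by
  intro m hm1 hmp ψ hψ hp
  obtain ⟨c, hc, hgr⟩ := hgrow.chart hψ hp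
  set v₀ := ψ p with hv₀
  have hv : v₀ ∈ ψ.target := ψ.map_source hp
  set g : V n → V n := fun v => ψ (G^[m] (ψ.symm v)) with hg
  have hsymm : ContMDiffAt (𝓡 n) (𝓡 n) ∞ ψ.symm v₀ :=
    (contMDiffOn_symm_of_mem_maximalAtlas hψ _ hv).contMDiffAt (ψ.open_target.mem_nhds hv)
  have hg1 : ContDiffAt ℝ 1 g v₀ := by
    rw [← contMDiffAt_iff_contDiffAt]
    have k1 : ContMDiffAt (𝓡 n) (𝓡 n) 1 ψ.symm v₀ := hsymm.of_le (by simp)
    have k2 : ContMDiffAt (𝓡 n) (𝓡 n) 1 (G^[m]) (ψ.symm v₀) :=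
      ((iter_smooth G m).contMDiffAt).of_le (by exact_mod_cast hr)
    have k3 : ContMDiffAt (𝓡 n) (𝓡 n) 1 ψ (G^[m] (ψ.symm v₀)) := by
      rw [hv₀, ψ.left_inv hp, hmp]
      exact ((contMDiffOn_of_mem_maximalAtlas hψ _ hp).contMDiffAt
        (ψ.open_source.mem_nhds hp)).of_le (by simp)
    exact (k3.comp (ψ.symm v₀) k2).comp v₀ k1
  have hgd : HasFDerivAt g (fderiv ℝ g v₀) v₀ := (hg1.differentiableAt (by simp)).hasFDerivAt
  have hfix : g v₀ = v₀ := by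
    show ψ (G^[m] (ψ.symm v₀)) = v₀
    rw [hv₀, ψ.left_inv hp, hmp]
  have hmono : ∀ y, h (Φ y) ≤ h (G^[m] y) := by
    intro y
    obtain ⟨j, rfl⟩ : ∃ j, m = j + 1 := ⟨m - 1, by omega⟩
    rw [Function.iterate_succ_apply]
    refine le_trans ?_ (g_mono_iter hm hG hΦ (G y) j)
    rw [hG]
    exact hm _
  have hgrow' : ∀ᶠ v in 𝓝 v₀, h (ψ.symm v) + c * ‖v - v₀‖ ^ 2 ≤ h (ψ.symm (g v)) := by
    have k1 : Tendsto ψ.symm (𝓝 v₀) (𝓝 p) := by
      have := (ψ.continuousAt_symm hv).tendsto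
      rwa [hv₀, ψ.left_inv hp] at this
    have k2 : ∀ᶠ y in 𝓝 p, G^[m] y ∈ ψ.source := by
      have : ContinuousAt (G^[m]) p := (iter_smooth G m).continuous.continuousAt
      exact this.preimage_mem_nhds (by rw [hmp]; exact ψ.open_source.mem_nhds hp)
    filter_upwards [k1.eventually hgr, k1.eventually k2, ψ.open_target.mem_nhds hv]
      with v j1 j2 j3
    rw [ψ.right_inv j3] at j1
    show _ ≤ h (ψ.symm (ψ (G^[m] (ψ.symm v))))
    rw [ψ.left_inv j2]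
    exact j1.trans (hmono _)
  have hso := second_order (H := fun w => h (ψ.symm w)) ((chart_cd hh hψ hv).of_le (m := 2)
    (WithTop.coe_le_coe.2 (le_top : (2 : ℕ∞) ≤ ⊤)))
    ((crit_iff hh hψ hp).1 hcrit) hgd hfix hgrow'
  exact noBdd_of_form (c := 2 * c) (by positivity) hso

/-! ### the invariant critical points -/

theorem crit_closed {h : N → ℝ} (hh : ContMDiff (𝓡 n) 𝓘(ℝ, ℝ) ∞ h) :
    IsClosed {y : N | IsCrit n h y} := by
  rw [← isOpen_compl_iff, isOpen_iff_mem_nhds]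
  intro y hy
  have hχ := IsManifold.chart_mem_maximalAtlas (I := 𝓡 n) (n := ∞) y
  have hyχ := mem_chart_source (V n) y
  set χ := chartAt (V n) y with hχdef
  have hy' : fderiv ℝ (fun w => h (χ.symm w)) (χ y) ≠ 0 := fun hcon =>
    hy ((crit_iff hh hχ hyχ).2 hcon)
  have hcd := chart_cd hh hχ (χ.map_source hyχ)
  have hc : ContinuousAt (fderiv ℝ fun w => h (χ.symm w)) (χ y) :=
    (hcd.fderiv_right (m := 0) (by simp)).continuousAt
  have h1 : ∀ᶠ v in 𝓝 (χ y), fderiv ℝ (fun w => h (χ.symm w)) v ≠ 0 :=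
    hc.eventually_ne hy'
  filter_upwards [(χ.continuousAt hyχ).eventually h1, χ.open_source.mem_nhds hyχ] with z hz hz'
  intro hcon
  exact hz ((crit_iff hh hχ hz').1 hcon)

theorem critInv_closed {r : ℕ∞} {F : DiffM n N r} {h : N → ℝ}
    (hh : ContMDiff (𝓡 n) 𝓘(ℝ, ℝ) ∞ h) : IsClosed (CritInv n F h) := by
  have h1 : CritInv n F h = ⋂ k : ℕ,
      ((F^[k]) ⁻¹' {y | IsCrit n h y} ∩ (F.symm^[k]) ⁻¹' {y | IsCrit n h y}) := by
    ext x
    simp only [CritInv, mem_setOf_eq, mem_iInter, mem_inter_iff, mem_preimage]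
  rw [h1]
  exact isClosed_iInter fun k => ((crit_closed hh).preimage (F.continuous.iterate k)).inter
    ((crit_closed hh).preimage (F.symm.continuous.iterate k))

/-- nondegenerate critical points are isolated -/
theorem nondeg_isolated {h : N → ℝ} (hh : ContMDiff (𝓡 n) 𝓘(ℝ, ℝ) ∞ h) {z : N}
    (hz : IsCrit n h z) (hnd : Nondeg n h z) : ∀ᶠ y in 𝓝 z, IsCrit n h y → y = z := by
  obtain ⟨O, χ, H, -, -, hχ, hzχ, hχ0, hH, he, -⟩ := local_push hh z univ isOpen_univ (mem_univ z)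
  have hH0 : fderiv ℝ H 0 = 0 := by
    rw [he.fderiv_eq, ← hχ0]
    exact (crit_iff hh hχ hzχ).1 hz
  have hH2 : ∀ v : V n, fderiv ℝ (fderiv ℝ H) 0 v = 0 → v = 0 := by
    intro v hv
    refine hnd χ hχ hzχ v ?_
    rw [hχ0, ← he.fderiv.fderiv_eq]
    exact hv
  obtain ⟨c, hc, hgr⟩ := gr_grow H hH hH0 hH2
  have hcont : Tendsto χ (𝓝 z) (𝓝 0) := by
    have := (χ.continuousAt hzχ).tendsto
    rwa [hχ0] at this
  have he' : fderiv ℝ H =ᶠ[𝓝 0] fderiv ℝ (fun w => h (χ.symm w)) := he.fderiv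
  filter_upwards [hcont.eventually hgr, hcont.eventually he', χ.open_source.mem_nhds hzχ]
    with y h1 h2 h3 h4
  have h5 : gr H (χ y) = 0 := by
    rw [gr_eq_zero, h2]
    exact (crit_iff hh hχ h3).1 h4
  rw [h5, norm_zero] at h1
  have h6 : ‖χ y‖ = 0 := by
    by_contra hne
    have : 0 < ‖χ y‖ := lt_of_le_of_ne (norm_nonneg _) (Ne.symm hne)
    have := mul_pos hc this
    linarith
  have h7 : χ y = χ z := by rw [hχ0]; exact norm_eq_zero.1 h6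
  exact χ.injOn h3 hzχ h7

theorem critInv_finite {r : ℕ∞} {F : DiffM n N r} {h : N → ℝ}
    (hh : ContMDiff (𝓡 n) 𝓘(ℝ, ℝ) ∞ h) (hnd : ∀ z ∈ CritInv n F h, Nondeg n h z) :
    (CritInv n F h).Finite := by
  by_contra hinf
  obtain ⟨x, hx, hacc⟩ := Set.Infinite.exists_accPt_of_subset_isCompact hinf
    (critInv_closed hh).isCompact Subset.rfl
  rw [accPt_iff_frequently_nhdsNE] at hacc
  have h1 := nondeg_isolated hh (hx 0).1 (hnd x hx)
  apply hacc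
  filter_upwards [nhdsWithin_le_nhds (s := {x}ᶜ) h1, self_mem_nhdsWithin] with y hy hne hcon
  exact hne (hy (hcon 0).1)

theorem critInv_map {r : ℕ∞} {F : DiffM n N r} {h : N → ℝ} {x : N} (hx : x ∈ CritInv n F h) :
    F x ∈ CritInv n F h := by
  intro k
  refine ⟨?_, ?_⟩
  · rw [← Function.iterate_succ_apply]
    exact (hx (k + 1)).1
  · rcases k with _ | k
    · exact (hx 1).1
    · rw [Function.iterate_succ_apply, F.symm_apply_apply]
      exact (hx k).2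

theorem critInv_iter {r : ℕ∞} {F : DiffM n N r} {h : N → ℝ} {x : N} (hx : x ∈ CritInv n F h)
    (k : ℕ) : F^[k] x ∈ CritInv n F h := by
  induction k with
  | zero => exact hx
  | succ k ih => rw [Function.iterate_succ_apply']; exact critInv_map ih

theorem critInv_per {r : ℕ∞} {F : DiffM n N r} {h : N → ℝ} (hfin : (CritInv n F h).Finite) :
    CritInv n F h ⊆ Per F := by
  intro x hx
  have := hfin.to_subtype
  obtain ⟨a, b, hab, heq⟩ := Finite.exists_ne_map_eq_of_infinite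
    (fun k : ℕ => (⟨F^[k] x, critInv_iter hx k⟩ : CritInv n F h))
  have heq' : F^[a] x = F^[b] x := congrArg Subtype.val heq
  rcases lt_or_gt_of_ne hab with h | h
  · obtain ⟨k, rfl⟩ := Nat.exists_eq_add_of_lt h
    refine ⟨k + 1, by omega, ?_⟩
    have : F^[a] (F^[k + 1] x) = F^[a] x := by
      rw [← Function.iterate_add_apply, heq']
      rfl
    exact (F.injective.iterate a) this
  · obtain ⟨k, rfl⟩ := Nat.exists_eq_add_of_lt h
    refine ⟨k + 1, by omega, ?_⟩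
    have : F^[b] (F^[k + 1] x) = F^[b] x := by
      rw [← Function.iterate_add_apply, ← heq']
      rfl
    exact (F.injective.iterate b) this

/-- `G = F` on the invariant critical points -/
theorem critInv_iter_eq {r : ℕ∞} {F G : DiffM n N r} {h : N → ℝ} {Φ : N → N}
    (hG : ∀ y, G y = F (Φ y)) (hΦ : IsPush n h univ Φ) {x : N} (hx : x ∈ CritInv n F h) (k : ℕ) :
    G^[k] x = F^[k] x := by
  induction k with
  | zero => rfl
  | succ k ih =>
    rw [Function.iterate_succ_apply', Function.iterate_succ_apply', ih, hG,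
      hΦ.fix _ (hx k).1]

theorem per_of_critInv {r : ℕ∞} {F G : DiffM n N r} {h : N → ℝ} {Φ : N → N}
    (hG : ∀ y, G y = F (Φ y)) (hΦ : IsPush n h univ Φ) (hfin : (CritInv n F h).Finite) {x : N}
    (hx : x ∈ CritInv n F h) : x ∈ Per G := by
  obtain ⟨m, hm, h1⟩ := critInv_per hfin hx
  exact ⟨m, hm, by rw [critInv_iter_eq hG hΦ hx]; exact h1⟩

end Pool.Agent.Y318.MN
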