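import Pool.Agent.Y504.CO.Gen
import Pool.Agent.Y318.MN.Int

/-!
# `Ω`-stable diffeomorphisms which do not decrease a function

Author: helper318. It uses the theorem of helper504 and the team of project CO on `Ω`-stable
diffeomorphisms with countably many nonperiodic recurrent points.
-/

set_option autoImplicit false
set_option linter.unusedSectionVars false

open scoped Manifold ContDiff Topology
open Filter Set Metric

universe u

namespace Pool.Agent.Y318.MN

open Pool.Agent.H718R2.G Pool.Agent.TH80.OMS Pool.Agent.Y504.CO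

variable {n : ℕ} {N : Type u} [TopologicalSpace N] [T2Space N] [CompactSpace N]
  [ChartedSpace (V n) N] [IsManifold (𝓡 n) ∞ N]

/-- **The theorem on stable diffeomorphisms.** -/
theorem stable_main {r : ℕ∞} (hr : 1 ≤ r) {F : DiffM n N r} (hF : OmegaStable n N r F)
    {h : N → ℝ} (hh : ContMDiff (𝓡 n) 𝓘(ℝ, ℝ) ∞ h) (hm : ∀ x, h x ≤ h (F x))
    (hR : ((CritInv n F h ∩ Rec F) \ Per F).Countable) :
    FiniteNoCycle F ∧ (∀ p ∈ Omega F, IsHyperbolicPer n F p ∧ IsCrit n h p) ∧
      ((∀ x, h (F x) = h x) → ∀ x, IsCrit n h x) := by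
  obtain ⟨G, hconj, hsub, hit, hcrit⟩ := transfer hr hF hh hm
  have hRG : (Rec G \ Per G).Countable := by
    refine hR.mono ?_
    rintro x ⟨hx, hxp⟩
    have hxO : x ∈ Omega G := rec_sub_omega hx
    have e : ∀ k : ℕ, F^[k] x = G^[k] x := hit x hxO
    refine ⟨⟨hsub hxO, ?_⟩, ?_⟩
    · intro W hW
      obtain ⟨k, hk, hkW⟩ := hx W hW
      exact ⟨k, hk, by rw [e]; exact hkW⟩
    · rintro ⟨m, hm1, hmx⟩
      exact hxp ⟨m, hm1, by rw [← e]; exact hmx⟩
  have hRG' : Rec G ⊆ Per G := Gen.rec_per G hRG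
  have hconj' : OmegaConj G F := by
    obtain ⟨e, he⟩ := hconj
    exact ⟨e.symm, conj_symm F.continuous e he⟩
  have hRF : Rec F ⊆ Per F := rec_conj G.continuous F.continuous hconj' hRG'
  have hRF' : (Rec F \ Per F).Countable := by
    rw [sdiff_eq_empty.2 hRF]
    exact countable_empty
  obtain ⟨h1, h2⟩ := Gen.stable hr hF hRF'
  exact ⟨h1, fun p hp => ⟨h2 p hp, hcrit h1.1 p (h2 p hp).1⟩,
    fun heq x => crit_of_finite hh.continuous heq h1.1 x⟩

theorem omegaConj_symm {F G : N → N} (hF : Continuous F) (h : OmegaConj F G) : OmegaConj G F := by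
  obtain ⟨e, he⟩ := h
  exact ⟨e.symm, conj_symm hF e he⟩

theorem omegaConj_trans {F G K : N → N} (h : OmegaConj F G) (h' : OmegaConj G K) :
    OmegaConj F K := by
  obtain ⟨e, he⟩ := h
  obtain ⟨e', he'⟩ := h'
  exact ⟨e.trans e', fun x y hxy => he' (e x) (e y) (he x y hxy)⟩

/-- `G` does not decrease some smooth function `h`, and at most countably many recurrent points of
`G` whose whole orbit consists of critical points of `h` are not periodic. -/
def NoDecrease (n : ℕ) (N : Type u) [TopologicalSpace N] [ChartedSpace (V n) N] (r : ℕ∞)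
    (G : DiffM n N r) : Prop :=
  ∃ h : N → ℝ, ContMDiff (𝓡 n) 𝓘(ℝ, ℝ) ∞ h ∧ (∀ x, h x ≤ h (G x)) ∧
    ((CritInv n G h ∩ Rec G) \ Per G).Countable

/-- **Limits of diffeomorphisms which do not decrease a function.** -/
theorem closure_main {r : ℕ∞} (hr : 1 ≤ r) {F : DiffM n N r} (hF : OmegaStable n N r F)
    (hcl : ∀ U : Set (DiffM n N r), IsOpen[strongTop n N r] U → F ∈ U →
      ∃ G ∈ U, NoDecrease n N r G) :
    FiniteNoCycle F ∧ ∀ p ∈ Omega F, IsHyperbolicPer n F p := by
  obtain ⟨U, hU, hFU, hconj⟩ := id hF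
  obtain ⟨G, hGU, h, hh, hm, hR⟩ := hcl U hU hFU
  have hGF : OmegaConj G F := omegaConj_symm F.continuous (hconj G hGU)
  have hGs : OmegaStable n N r G :=
    ⟨U, hU, hGU, fun G' hG' => omegaConj_trans hGF (hconj G' hG')⟩
  obtain ⟨-, h2, -⟩ := stable_main hr hGs hh hm hR
  have hRG : Rec G ⊆ Per G := fun x hx => (h2 x (rec_sub_omega hx)).1.1
  have hRF : Rec F ⊆ Per F := rec_conj G.continuous F.continuous hGF hRG
  refine Gen.stable hr hF ?_
  rw [sdiff_eq_empty.2 hRF]
  exact countable_empty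

end Pool.Agent.Y318.MN
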