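import Pool.Agent.Y318.MN.Push
import Pool.Agent.Y504.CO.Stm2

/-!
# Quadratic growth at nondegenerate critical points, and hyperbolicity

Author: helper318.
-/

set_option autoImplicit false
set_option linter.unusedSectionVars false

open scoped Manifold ContDiff Topology NNReal
open Filter Set Metric

universe u

namespace Pool.Agent.Y318.MN

open Pool.Agent.H718R2.G Pool.Agent.TH80.OMS Pool.Agent.Y504.CO

section linear

variable {n : ℕ}

/-- The gradient grows linearly near a nondegenerate critical point. -/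
theorem gr_grow (H : V n → ℝ) (hH : ContDiff ℝ ∞ H) (h0 : fderiv ℝ H 0 = 0)
    (hnd : ∀ v : V n, fderiv ℝ (fderiv ℝ H) 0 v = 0 → v = 0) :
    ∃ c : ℝ, 0 < c ∧ ∀ᶠ v in 𝓝 (0 : V n), c * ‖v‖ ≤ ‖gr H v‖ := by
  set L : V n →L[ℝ] V n := fderiv ℝ (gr H) 0 with hL
  have hgd : HasFDerivAt (gr H) L 0 :=
    ((gr_smooth H hH).differentiable (by simp) 0).hasFDerivAt
  have hdd : HasFDerivAt (fderiv ℝ H) (fderiv ℝ (fderiv ℝ H) 0) 0 :=
    ((hH.fderiv_right (m := ∞) (by simp)).differentiable (by simp) 0).hasFDerivAt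
  have hgr0 : gr H 0 = 0 := (gr_eq_zero H 0).2 h0
  have hLi : ∀ v i, L v i = fderiv ℝ (fderiv ℝ H) 0 v (EuclideanSpace.single i 1) := by
    intro v i
    have h1 : HasFDerivAt (fun w => gr H w i)
        ((EuclideanSpace.proj i : V n →L[ℝ] ℝ).comp L) 0 :=
      (EuclideanSpace.proj i : V n →L[ℝ] ℝ).hasFDerivAt.comp 0 hgd
    have h2 : HasFDerivAt (fun w => gr H w i)
        ((ContinuousLinearMap.apply ℝ ℝ (EuclideanSpace.single i 1 : V n)).comp
          (fderiv ℝ (fderiv ℝ H) 0)) 0 :=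
      (ContinuousLinearMap.apply ℝ ℝ (EuclideanSpace.single i 1 : V n)).hasFDerivAt.comp 0 hdd
    have h3 := congrArg (fun M : V n →L[ℝ] ℝ => M v) (h1.unique h2)
    exact h3
  have hker : LinearMap.ker (L : V n →ₗ[ℝ] V n) = ⊥ := by
    rw [LinearMap.ker_eq_bot']
    intro v hv
    apply hnd
    have hv' : L v = 0 := hv
    have h4 : ∀ w : V n, fderiv ℝ (fderiv ℝ H) 0 v w = 0 := by
      intro w
      rw [← (EuclideanSpace.basisFun (Fin n) ℝ).sum_repr w, map_sum]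
      refine Finset.sum_eq_zero fun i _ => ?_
      rw [map_smul, EuclideanSpace.basisFun_apply, ← hLi, hv']
      simp
    ext w
    exact h4 w
  obtain ⟨K, hK0, hK⟩ := LinearMap.exists_antilipschitzWith (L : V n →ₗ[ℝ] V n) hker
  have hK1 : (0 : ℝ) < K := hK0
  have hK2 : ∀ v, ‖v‖ ≤ K * ‖L v‖ := by
    intro v
    have := hK.le_mul_dist v 0
    rw [dist_zero_right] at this
    simpa using this
  refine ⟨1 / (2 * K), by positivity, ?_⟩
  have h5 := hasFDerivAt_iff_isLittleO_nhds_zero.1 hgd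
  have h6 := h5.def (c := 1 / (2 * K)) (by positivity)
  filter_upwards [h6] with v hv
  rw [zero_add, hgr0, sub_zero] at hv
  have h7 : ‖L v‖ ≤ ‖gr H v‖ + ‖gr H v - L v‖ := by
    have : L v = gr H v - (gr H v - L v) := by abel
    calc ‖L v‖ = ‖gr H v - (gr H v - L v)‖ := by rw [← this]
      _ ≤ _ := norm_sub_le _ _
  have h8 : ‖v‖ / K ≤ ‖L v‖ := by
    rw [div_le_iff₀ hK1, mul_comm]
    exact hK2 v
  have h9 : 1 / (2 * K) * ‖v‖ = ‖v‖ / K / 2 := by
    field_simp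
  rw [h9] at hv ⊢
  linarith

theorem taylor2 {H : V n → ℝ} {v₀ : V n} (hH : ContDiffAt ℝ 2 H v₀) (h0 : fderiv ℝ H v₀ = 0)
    (ε : ℝ) (hε : 0 < ε) :
    ∀ᶠ u in 𝓝 (0 : V n),
      |H (v₀ + u) - H v₀ - 1 / 2 * fderiv ℝ (fderiv ℝ H) v₀ u u| ≤ ε * ‖u‖ ^ 2 := by
  set T := fderiv ℝ (fderiv ℝ H) v₀ with hT
  have hd : HasFDerivAt (fderiv ℝ H) T v₀ :=
    ((hH.fderiv_right (m := 1) (by norm_num)).differentiableAt (by simp)).hasFDerivAt
  have h1 := (hasFDerivAt_iff_isLittleO_nhds_zero.1 hd).def (c := ε) hε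
  have h2 : ∀ᶠ w in 𝓝 v₀, DifferentiableAt ℝ H w := by
    have := hH.eventually (by simp)
    filter_upwards [this] with w hw
    exact hw.differentiableAt (by simp)
  have h3 : ∀ᶠ u in 𝓝 (0 : V n), DifferentiableAt ℝ H (v₀ + u) := by
    have hc : Tendsto (fun u : V n => v₀ + u) (𝓝 0) (𝓝 v₀) := by
      have : Continuous fun u : V n => v₀ + u := by fun_prop
      simpa using this.tendsto 0
    exact hc.eventually h2
  obtain ⟨δ, hδ, hball⟩ := Metric.eventually_nhds_iff.1 (h1.and h3)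
  rw [Metric.eventually_nhds_iff]
  refine ⟨δ, hδ, fun {u} hu => ?_⟩
  rw [dist_zero_right] at hu
  have hseg : ∀ t : ℝ, |t| ≤ 1 → ‖fderiv ℝ H (v₀ + t • u) - T (t • u)‖ ≤ ε * ‖t • u‖ ∧
      DifferentiableAt ℝ H (v₀ + t • u) := by
    intro t ht
    have hn : dist (t • u) 0 < δ := by
      rw [dist_zero_right, norm_smul, Real.norm_eq_abs]
      calc |t| * ‖u‖ ≤ 1 * ‖u‖ := mul_le_mul_of_nonneg_right ht (norm_nonneg _)
        _ = ‖u‖ := one_mul _
        _ < δ := hu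
    obtain ⟨k1, k2⟩ := hball hn
    rw [h0, sub_zero] at k1
    exact ⟨k1, k2⟩
  have hderiv : ∀ t : ℝ, |t| ≤ 1 → HasDerivAt
      (fun t : ℝ => H (v₀ + t • u) - 1 / 2 * t ^ 2 * T u u)
      (fderiv ℝ H (v₀ + t • u) u - t * T u u) t := by
    intro t ht
    have k1 : HasFDerivAt H (fderiv ℝ H (v₀ + t • u)) (v₀ + t • u) := (hseg t ht).2.hasFDerivAt
    have k2 : HasDerivAt (fun t : ℝ => v₀ + t • u) u t := by
      simpa using ((hasDerivAt_id t).smul_const u).const_add v₀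
    have k3 : HasDerivAt (fun t : ℝ => 1 / 2 * t ^ 2 * T u u) (t * T u u) t := by
      refine (((hasDerivAt_pow 2 t).const_mul (1 / 2 : ℝ)).mul_const (T u u)).congr_deriv ?_
      norm_num
      exact Or.inl (by ring)
    exact (k1.comp_hasDerivAt t k2).sub k3
  obtain ⟨t, ht, heq⟩ := exists_hasDerivAt_eq_slope
    (fun t : ℝ => H (v₀ + t • u) - 1 / 2 * t ^ 2 * T u u)
    (fun t => fderiv ℝ H (v₀ + t • u) u - t * T u u) (zero_lt_one)
    (fun t ht => (hderiv t (abs_le.2 ⟨by linarith [ht.1], ht.2⟩)).continuousAt.continuousWithinAt)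
    (fun t ht => hderiv t (abs_le.2 ⟨by linarith [ht.1], ht.2.le⟩))
  simp only [one_smul, zero_smul, add_zero, sub_zero, div_one, one_pow, mul_one] at heq
  have ht' : |t| ≤ 1 := abs_le.2 ⟨by linarith [ht.1], ht.2.le⟩
  have h4 : fderiv ℝ H (v₀ + t • u) u - t * T u u = (fderiv ℝ H (v₀ + t • u) - T (t • u)) u := by
    rw [map_smul]
    rfl
  have h5 : |fderiv ℝ H (v₀ + t • u) u - t * T u u| ≤ ε * ‖u‖ ^ 2 := by
    rw [h4, ← Real.norm_eq_abs]
    refine (ContinuousLinearMap.le_opNorm _ _).trans ?_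
    have k1 := (hseg t ht').1
    have k2 : ‖t • u‖ ≤ ‖u‖ := by
      rw [norm_smul, Real.norm_eq_abs]
      calc |t| * ‖u‖ ≤ 1 * ‖u‖ := mul_le_mul_of_nonneg_right ht' (norm_nonneg _)
        _ = ‖u‖ := one_mul _
    calc ‖fderiv ℝ H (v₀ + t • u) - T (t • u)‖ * ‖u‖ ≤ (ε * ‖t • u‖) * ‖u‖ :=
          mul_le_mul_of_nonneg_right k1 (norm_nonneg _)
      _ ≤ (ε * ‖u‖) * ‖u‖ := by gcongr
      _ = ε * ‖u‖ ^ 2 := by ring
  have h6 : H (v₀ + u) - H v₀ - 1 / 2 * T u u = fderiv ℝ H (v₀ + t • u) u - t * T u u := by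
    rw [heq]
    ring_nf
  rw [h6]
  exact h5

/-- The second derivative of a function which grows quadratically along a map. -/
theorem second_order {H : V n → ℝ} {v₀ : V n} (hH : ContDiffAt ℝ 2 H v₀)
    (h0 : fderiv ℝ H v₀ = 0) {g : V n → V n} {A : V n →L[ℝ] V n} (hg : HasFDerivAt g A v₀)
    (hfix : g v₀ = v₀) {c : ℝ} (hgrow : ∀ᶠ v in 𝓝 v₀, H v + c * ‖v - v₀‖ ^ 2 ≤ H (g v)) (w : V n) :
    fderiv ℝ (fderiv ℝ H) v₀ w w + 2 * c * ‖w‖ ^ 2 ≤ fderiv ℝ (fderiv ℝ H) v₀ (A w) (A w) := by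
  set T := fderiv ℝ (fderiv ℝ H) v₀ with hT
  -- the quotients
  set u : ℝ → V n := fun s => g (v₀ + s • w) - v₀ with hu
  have hline : HasDerivAt (fun s : ℝ => v₀ + s • w) w 0 := by
    simpa using ((hasDerivAt_id (0 : ℝ)).smul_const w).const_add v₀
  have hgl : HasDerivAt (fun s : ℝ => g (v₀ + s • w)) (A w) 0 := by
    have hg' : HasFDerivAt g A (v₀ + (0 : ℝ) • w) := by simpa using hg
    exact hg'.comp_hasDerivAt (0 : ℝ) hline
  have hquot : Tendsto (fun s : ℝ => s⁻¹ • u s) (𝓝[≠] 0) (𝓝 (A w)) := by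
    have := hasDerivAt_iff_tendsto_slope_zero.1 hgl
    refine this.congr fun s => ?_
    simp only [zero_add, zero_smul, add_zero, hfix, hu]
  have hcl : Tendsto (fun s : ℝ => v₀ + s • w) (𝓝[≠] 0) (𝓝 v₀) := by
    have h1 : Continuous fun s : ℝ => v₀ + s • w := by fun_prop
    have h2 := h1.tendsto 0
    simp only [zero_smul, add_zero] at h2
    exact h2.mono_left nhdsWithin_le_nhds
  have hsl : Tendsto (fun s : ℝ => s • w) (𝓝[≠] 0) (𝓝 0) := by
    have h1 : Continuous fun s : ℝ => s • w := by fun_prop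
    have h2 := h1.tendsto 0
    simp only [zero_smul] at h2
    exact h2.mono_left nhdsWithin_le_nhds
  have hul : Tendsto u (𝓝[≠] 0) (𝓝 0) := by
    have h2 := (hgl.continuousAt.tendsto).mono_left (nhdsWithin_le_nhds (s := {0}ᶜ))
    simp only [zero_smul, add_zero, hfix] at h2
    have h3 := h2.sub_const v₀
    rw [sub_self] at h3
    exact h3
  refine le_of_forall_pos_le_add fun η hη => ?_
  -- the bound with errors
  obtain ⟨ε, hε, hεη⟩ : ∃ ε : ℝ, 0 < ε ∧ 2 * ε * ‖w‖ ^ 2 + 2 * ε * (‖A w‖ ^ 2 + 1) ≤ η / 2 := by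
    refine ⟨η / (4 * (‖w‖ ^ 2 + (‖A w‖ ^ 2 + 1))), by positivity, ?_⟩
    have hpos : 0 < ‖w‖ ^ 2 + (‖A w‖ ^ 2 + 1) := by positivity
    have : 2 * (η / (4 * (‖w‖ ^ 2 + (‖A w‖ ^ 2 + 1)))) * ‖w‖ ^ 2 +
        2 * (η / (4 * (‖w‖ ^ 2 + (‖A w‖ ^ 2 + 1)))) * (‖A w‖ ^ 2 + 1) = η / 2 := by
      field_simp
      ring
    exact this.le
  have htay := taylor2 hH h0 ε hε
  have e1 := hsl.eventually htay
  have e2 := hul.eventually htay
  have e3 := hcl.eventually hgrow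
  have e4 : ∀ᶠ s in 𝓝[≠] (0 : ℝ), ‖s⁻¹ • u s‖ ^ 2 < ‖A w‖ ^ 2 + 1 := by
    have := (hquot.norm.pow 2)
    exact this.eventually (gt_mem_nhds (by linarith))
  have e5 : ∀ᶠ s in 𝓝[≠] (0 : ℝ), T (s⁻¹ • u s) (s⁻¹ • u s) < T (A w) (A w) + η / 2 := by
    have hTc : Continuous fun x : V n => T x x := by fun_prop
    have := (hTc.tendsto (A w)).comp hquot
    exact this.eventually (gt_mem_nhds (by linarith))
  have e6 : ∀ᶠ s in 𝓝[≠] (0 : ℝ), s ≠ 0 := eventually_mem_nhdsWithin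
  obtain ⟨s, h1, h2, h3, h4, h5, h6⟩ :=
    (e1.and (e2.and (e3.and (e4.and (e5.and e6))))).exists
  have hs2 : 0 < s ^ 2 := by positivity
  have k1 : T (s • w) (s • w) = s ^ 2 * T w w := by
    simp only [map_smul, ContinuousLinearMap.smul_apply, smul_eq_mul]
    ring
  have k2 : T (u s) (u s) = s ^ 2 * T (s⁻¹ • u s) (s⁻¹ • u s) := by
    simp only [map_smul, ContinuousLinearMap.smul_apply, smul_eq_mul]
    field_simp
  have k3 : ‖u s‖ ^ 2 = s ^ 2 * ‖s⁻¹ • u s‖ ^ 2 := by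
    rw [norm_smul, mul_pow, norm_inv, Real.norm_eq_abs, inv_pow, sq_abs]
    field_simp
  have k4 : ‖s • w‖ ^ 2 = s ^ 2 * ‖w‖ ^ 2 := by
    rw [norm_smul, mul_pow, Real.norm_eq_abs, sq_abs]
  have k5 : v₀ + u s = g (v₀ + s • w) := by
    show v₀ + (g (v₀ + s • w) - v₀) = _
    abel
  have k6 : v₀ + s • w - v₀ = s • w := by abel
  rw [k1, k4] at h1
  rw [k2, k3, k5] at h2
  rw [k6, k4] at h3
  have h1' := (abs_le.1 h1).1
  have h2' := (abs_le.1 h2).2
  have key : s ^ 2 * (1 / 2 * T w w + c * ‖w‖ ^ 2) ≤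
      s ^ 2 * (1 / 2 * T (s⁻¹ • u s) (s⁻¹ • u s) + ε * ‖w‖ ^ 2 + ε * ‖s⁻¹ • u s‖ ^ 2) := by
    linarith
  have key2 := le_of_mul_le_mul_left key hs2
  have k7 : ε * ‖s⁻¹ • u s‖ ^ 2 ≤ ε * (‖A w‖ ^ 2 + 1) := mul_le_mul_of_nonneg_left h4.le hε.le
  linarith

/-- A form which grows along `A` excludes bounded orbits. -/
theorem noBdd_of_form {A : V n →L[ℝ] V n} {T : V n →L[ℝ] V n →L[ℝ] ℝ} {c : ℝ} (hc : 0 < c)
    (h : ∀ w, T w w + c * ‖w‖ ^ 2 ≤ T (A w) (A w)) : NoBdd (fun _ => A) := by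
  intro v hbd hv
  obtain ⟨C, hC⟩ := hbd
  set q : ℤ → ℝ := fun i => T (v i) (v i) with hq
  have hstep : ∀ i, q i + c * ‖v i‖ ^ 2 ≤ q (i + 1) := by
    intro i
    have := h (v i)
    show T (v i) (v i) + c * ‖v i‖ ^ 2 ≤ T (v (i + 1)) (v (i + 1))
    rw [hv i]
    exact this
  have hqb : ∀ i, |q i| ≤ ‖T‖ * ‖v i‖ ^ 2 := by
    intro i
    rw [← Real.norm_eq_abs]
    calc ‖T (v i) (v i)‖ ≤ ‖T (v i)‖ * ‖v i‖ := ContinuousLinearMap.le_opNorm _ _
      _ ≤ (‖T‖ * ‖v i‖) * ‖v i‖ := mul_le_mul_of_nonneg_right (T.le_opNorm _) (norm_nonneg _)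
      _ = ‖T‖ * ‖v i‖ ^ 2 := by ring
  have hT0 : 0 ≤ ‖T‖ := T.opNorm_nonneg
  have hqB : ∀ i, |q i| ≤ ‖T‖ * C ^ 2 := by
    intro i
    refine (hqb i).trans (mul_le_mul_of_nonneg_left ?_ hT0)
    exact pow_le_pow_left₀ (norm_nonneg _) (hC i) 2
  -- sums
  have hsum : ∀ (i : ℤ) (K : ℕ),
      ∑ k ∈ Finset.range K, c * ‖v (i + k)‖ ^ 2 ≤ q (i + K) - q i := by
    intro i K
    induction K with
    | zero => simp
    | succ K ih =>
      rw [Finset.sum_range_succ]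
      have := hstep (i + K)
      have e : i + ((K + 1 : ℕ) : ℤ) = i + K + 1 := by push_cast; ring
      rw [e]
      linarith
  have hmono : ∀ (i : ℤ) (K : ℕ), q i ≤ q (i + K) := by
    intro i K
    have h1 := hsum i K
    have h2 : 0 ≤ ∑ k ∈ Finset.range K, c * ‖v (i + k)‖ ^ 2 :=
      Finset.sum_nonneg fun k _ => by positivity
    linarith
  -- the future
  have hfut : ∀ i : ℤ, q i ≤ 0 := by
    intro i
    have hs : Summable fun k : ℕ => c * ‖v (i + k)‖ ^ 2 :=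
      summable_of_sum_range_le (c := 2 * (‖T‖ * C ^ 2)) (fun k => by positivity) fun K => by
        have h1 := hsum i K
        have h2 := (abs_le.1 (hqB i)).1
        have h3 := (abs_le.1 (hqB (i + K))).2
        linarith
    have ht := hs.tendsto_atTop_zero
    have hq0 : Tendsto (fun k : ℕ => ‖T‖ / c * (c * ‖v (i + k)‖ ^ 2)) atTop (𝓝 0) := by
      have := ht.const_mul (‖T‖ / c)
      rwa [mul_zero] at this
    refine ge_of_tendsto hq0 (Eventually.of_forall fun k => ?_)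
    have h1 := (hmono i k).trans ((le_abs_self _).trans (hqb (i + k)))
    have e : ‖T‖ / c * (c * ‖v (i + k)‖ ^ 2) = ‖T‖ * ‖v (i + k)‖ ^ 2 := by field_simp
    rw [e]
    exact h1
  -- the past
  have hpast : ∀ i : ℤ, 0 ≤ q i := by
    intro i
    have hs : Summable fun k : ℕ => c * ‖v (i - k)‖ ^ 2 :=
      summable_of_sum_range_le (c := 2 * (‖T‖ * C ^ 2)) (fun k => by positivity) fun K => by
        have h1 := hsum (i + 1 - K) K
        have h2 := (abs_le.1 (hqB (i + 1 - K))).1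
        have h3 := (abs_le.1 (hqB (i + 1 - K + K))).2
        rw [← Finset.sum_range_reflect] at h1
        have e : ∑ k ∈ Finset.range K, c * ‖v (i - k)‖ ^ 2 =
            ∑ k ∈ Finset.range K, c * ‖v (i + 1 - K + ((K - 1 - k : ℕ) : ℤ))‖ ^ 2 := by
          refine Finset.sum_congr rfl fun k hk => ?_
          have hk' := Finset.mem_range.1 hk
          have e1 : i + 1 - (K : ℤ) + ((K - 1 - k : ℕ) : ℤ) = i - k := by omega
          rw [e1]
        rw [e]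
        linarith
    have ht := hs.tendsto_atTop_zero
    have hq0 : Tendsto (fun k : ℕ => -(‖T‖ / c * (c * ‖v (i - k)‖ ^ 2))) atTop (𝓝 0) := by
      have := (ht.const_mul (‖T‖ / c)).neg
      rwa [mul_zero, neg_zero] at this
    refine le_of_tendsto hq0 (Eventually.of_forall fun k => ?_)
    have h0 := hmono (i - k) k
    rw [sub_add_cancel] at h0
    have h1 := (abs_le.1 (hqb (i - k))).1
    have e : ‖T‖ / c * (c * ‖v (i - k)‖ ^ 2) = ‖T‖ * ‖v (i - k)‖ ^ 2 := by field_simp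
    rw [e]
    linarith
  intro i
  have h1 := hstep i
  have h2 := hfut (i + 1)
  have h3 := hpast i
  have h4 : c * ‖v i‖ ^ 2 ≤ 0 := by linarith
  have h5 : ‖v i‖ ^ 2 ≤ 0 := by
    by_contra hcon
    push Not at hcon
    have := mul_pos hc hcon
    linarith
  have h6 : ‖v i‖ ^ 2 = 0 := le_antisymm h5 (sq_nonneg _)
  exact norm_eq_zero.1 (pow_eq_zero_iff two_ne_zero |>.1 h6)

end linear

end Pool.Agent.Y318.MN
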